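import Pool.Agent.T9h94.QS.Main

set_option autoImplicit false

/-!
# `S_d(n) ≡ 0 (mod Φ_n(q)^3)` for odd `d ≥ 5` and `n ≡ -1 (mod d)`

The sum is very-well-poised with all numerator parameters equal to `q`. Replacing the `i`-th
parameter by `q y^(r_i)` with `∑ r_i = 0` changes the sum only in second order at `y = 1`, and the
second order term is `∑ r_i²` times a quantity that does not depend on the `r_i`. For two suitable
choices of the `r_i` the deformed sum at `y = q^n` is a divided difference of order `M` of a
polynomial of degree less than `M`, so it vanishes. Comparing the two choices gives the result.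
-/

namespace Pool.Agent.Results.MP_3c5a12_nt.CubeAtMinusOne

open Pool.Agent.T9h94.QS

theorem result (d n : ℕ) (hodd : Odd d) (hd : 5 ≤ d) (hn : 0 < n) (hnd : (n : ℤ) ≡ -1 [ZMOD d]) :
    CongZero n 3 (S d n) := by
  obtain ⟨t, rfl⟩ := hodd
  have h1 : ((2 * t + 1 : ℕ) : ℤ) ∣ ((n + 1 : ℕ) : ℤ) := by
    have := hnd.symm.dvd
    push_cast at this ⊢
    simpa using this
  obtain ⟨m, hm⟩ := Int.natCast_dvd_natCast.1 h1
  refine main_one t m n (by omega) ?_ hm
  rcases Nat.eq_zero_or_pos m with h0 | h0
  · rw [h0, mul_zero] at hm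
    omega
  · exact h0

end Pool.Agent.Results.MP_3c5a12_nt.CubeAtMinusOne
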