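import Pool.Agent.T9h94.QS.Main

set_option autoImplicit false

/-!
# `S_d(n) ≡ 0 (mod Φ_n(q)^4)` for odd `d ≥ 5` and `2n ≡ -1 (mod d)`

As for `n ≡ -1 (mod d)`, deformations `q y^(r_i)` of the parameters with `∑ r_i = 0` for which the
sum at `y = q^n` vanishes are compared. In this case the terms of the deformed sum are moreover
antisymmetric modulo `Φ_n(q)`, for every `y`, and this gives one more factor `Φ_n(q)`.
-/

namespace Pool.Agent.Results.MP_3c5a12_nt.FourthAtMinusHalf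

open Pool.Agent.T9h94.QS

theorem result (d n : ℕ) (hodd : Odd d) (hd : 5 ≤ d) (hn : 0 < n)
    (hnd : 2 * (n : ℤ) ≡ -1 [ZMOD d]) : CongZero n 4 (S d n) := by
  obtain ⟨t, rfl⟩ := hodd
  have h1 : ((2 * t + 1 : ℕ) : ℤ) ∣ ((2 * n + 1 : ℕ) : ℤ) := by
    have := hnd.symm.dvd
    push_cast at this ⊢
    simpa using this
  obtain ⟨m, hm⟩ := Int.natCast_dvd_natCast.1 h1
  have hmo : Odd m := by
    have h2 : Odd ((2 * t + 1) * m) := ⟨n, hm.symm⟩
    exact (Nat.odd_mul.1 h2).2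
  obtain ⟨h, rfl⟩ := hmo
  exact main_two t h n (by omega) hm

end Pool.Agent.Results.MP_3c5a12_nt.FourthAtMinusHalf
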